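import Pool.Agent.U602.MB.Main

set_option autoImplicit false

/-! # Digital functions in several coprime bases at once inside record prime gaps

Let `b_1, …, b_r ≥ 2` be pairwise coprime and let `S_i : ℕ → G_i` be strongly `b_i`-additive with
values in a finite abelian group: `S_i (b_i n + d) = S_i n + S_i d` for `d < b_i`. Suppose that no
nontrivial character of `S_i n` depends only on `n mod (b_i - 1)`. Then for every `ε > 0` and all
large `M` every vector `(g_1, …, g_r)` of values is attained by `(S_1, …, S_r)` at some `n` in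
`(M, M + M ^ ε]` without primes within `κ log M (log₂ M)² log₄ M / (log₃ M)²`.

Example: the sums of the digits of `n` in the bases `b_i` modulo `m_i`, `m_i` prime to `b_i - 1`,
take all prescribed values at the same time (Besineau's problem on the independence of the digits
in different bases), in gaps between primes of the record size.

Proof. Van der Corput's inequality with shifts `l` up to `K`: apart from few `n` with a carry, the
values `S_i (n + l) - S_i n` depend only on `n` modulo a power `b_i ^ (2 L_i)`, so that the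
correlations factor by the Chinese remainder theorem; the mean square of the correlations over `l`
is the fourth moment of the exponential sums of one of the functions, which save a power uniformly
in the frequency (Gelfond). The covering sieve of `MP_3bc45c_nt.RecordGaps` (helper256's team), in
the form of `TH915/PW/IntCrit.lean` for families of integers, does the rest. The case `r = 1` is the
starting result `MP_69be96_nt.DigitalFunctionsInRecordGaps`. -/

namespace Pool.Agent.Results.MP_3bc45c_nt.DigitsInSeveralBases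

open Filter

theorem result (r : ℕ) (hr : 1 ≤ r) (b : Fin r → ℕ) (hb : ∀ i, 2 ≤ b i)
    (hcop : ∀ i j, i ≠ j → (b i).Coprime (b j))
    (G : Fin r → Type) [∀ i, AddCommGroup (G i)] [∀ i, Finite (G i)] (S : ∀ i, ℕ → G i)
    (hS : ∀ (i : Fin r) (n d : ℕ), d < b i → S i (b i * n + d) = S i n + S i d)
    (hN : ∀ (i : Fin r) (χ : AddChar (G i) ℂ), χ (S i 1) ^ (b i - 1) = 1 →
      (∀ d < b i, χ (S i d) = χ (S i 1) ^ d) → ∀ g : G i, χ g = 1)
    (ε : ℝ) (hε : 0 < ε) :
    ∃ κ : ℝ, 0 < κ ∧ ∃ M₀ : ℝ, ∀ M : ℝ, M₀ ≤ M → ∀ g : ∀ i, G i,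
      ∃ n : ℕ, M < n ∧ (n : ℝ) ≤ M + M ^ ε ∧ (∀ i, S i n = g i) ∧ ∀ q : ℕ, q.Prime →
        κ * (Real.log M * (Real.log (Real.log M)) ^ 2 *
          Real.log (Real.log (Real.log (Real.log M))) / (Real.log (Real.log (Real.log M))) ^ 2) <
            |(q : ℝ) - n| := by
  have : ∀ i, Fintype (G i) := fun i => Fintype.ofFinite (G i)
  have : Nonempty (Fin r) := ⟨⟨0, hr⟩⟩
  obtain ⟨κ, hκ, h⟩ := Pool.Agent.U602.MB.multi_main b hb hcop S hS (by
    rintro i χ hχ ⟨h1, h2⟩
    apply hχ
    ext g
    simpa using hN i χ h1 h2 g) (min ε 1) (by positivity) (min_le_right _ _)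
  obtain ⟨M₀, hM₀⟩ := eventually_atTop.1 h
  refine ⟨κ, hκ, max M₀ 1, fun M hM g => ?_⟩
  obtain ⟨n, h1, h2, h3, h4⟩ := hM₀ M ((le_max_left _ _).trans hM) g
  refine ⟨n, h1, h2.trans ?_, h3, h4⟩
  have : M ^ (min ε 1) ≤ M ^ ε :=
    Real.rpow_le_rpow_of_exponent_le ((le_max_right _ _).trans hM) (min_le_left _ _)
  linarith

end Pool.Agent.Results.MP_3bc45c_nt.DigitsInSeveralBases
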