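import Mathlib
import Pool.Agent.U839.Or.Gap

set_option autoImplicit false

/-!
# Cramér's order of magnitude in sieved random models

In Cramér's model every `n` is chosen with probability `1 / log n`. In the model with the sieve `T` only the
integers `n` without prime factors `p ≤ T(n)` are chosen, with probability
`∏_{p ≤ T(n)} (1 - 1/p)⁻¹ / log n`; Granville's model has `T(n)` about `log n`. Let `G(X)` be the largest gap
between consecutive chosen numbers up to `X`. We answer the question whether `G(X)` has order `(log X)²`: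

(A) the lower bound `G(X) ≥ (1 - o(1)) (log X)²` holds almost surely for all `T` smaller than every power of `n`;

(B) for every `θ < 1` there is a constant `C`, which does not depend on `T`, such that almost surely
`G(X) ≤ C (log X)²` for all large `X`, if `T(n) ≤ (log n)^θ` for all large `n`.

By (B) of `MP_f9960f_nt.SievedRandomModels` the constant is larger than `1` if `T(n) ≥ (log n)^θ'`, `θ' > 0`, so
that here Cramér's order of magnitude is right and his constant is wrong.

Proof. (A): the weights of the windows of length `c (log X)²`, `c < 1`, have the right mean, so that a positive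
proportion of them have at most `(1 + δ)` times the mean weight; many of them are empty. (B): a window of length
`K = C (log n)²` contains more than `c K / log K` integers without prime factors up to `K^ζ`, `ζ < 1/2`, by the
linear sieve (library `Pool.Agent.Y835.SB`), for every residue class of the window modulo the small primes; since
`T ≤ K^ζ` these integers have weight at least `log T`. If `T` is larger than a small power of `K` this is the
right order, otherwise the fundamental lemma applies.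
-/

open MeasureTheory ProbabilityTheory Filter Topology

namespace Pool.Agent.Results.MP_3bc45c_nt.OrderInSievedModels

open Classical in
/-- `∏_{p ≤ T(n)} (1 - 1/p)⁻¹` if `n` has no prime factor `p ≤ T(n)`, and `0` otherwise. -/
noncomputable def weight (T : ℕ → ℕ) (n : ℕ) : ℝ :=
  if ∀ p, p.Prime → p ≤ T n → ¬ p ∣ n then
    ∏ p ∈ (Finset.Icc 1 (T n)).filter Nat.Prime, (1 - 1 / (p : ℝ))⁻¹ else 0

/-- The random model: `E n` is the event that `n` is chosen; these events are independent and have
probability `weight T n / log n` (if this is at most `1`, which is the case for all large `n` here). -/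
structure Model {Ω : Type*} [MeasurableSpace Ω] (μ : Measure Ω) (T : ℕ → ℕ) (E : ℕ → Set Ω) : Prop where
  meas : ∀ n, MeasurableSet (E n)
  indep : iIndepSet E μ
  law : ∀ n : ℕ, μ.real (E n) = min 1 (weight T n / Real.log n)

/-- The largest difference `q_(k+1) - q_k` of consecutive elements of `Q = {q_0 < q_1 < …}` with
`q_(k+1) ≤ X`. -/
noncomputable def G (Q : Set ℕ) (X : ℕ) : ℕ :=
  sSup {g | ∃ k, Nat.nth (· ∈ Q) (k + 1) ≤ X ∧ g = Nat.nth (· ∈ Q) (k + 1) - Nat.nth (· ∈ Q) k}

theorem toSieved {Ω : Type*} [MeasurableSpace Ω] {μ : Measure Ω} {T : ℕ → ℕ} {E : ℕ → Set Ω}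
    (h : Model μ T E) : Pool.Agent.U839.Sv.Sieved μ E T :=
  ⟨h.meas, h.indep, h.law⟩

/-- (A), (B). -/
theorem result.{u} :
    (∀ T : ℕ → ℕ, Monotone T → (∀ ε : ℝ, 0 < ε → ∀ᶠ n : ℕ in atTop, (T n : ℝ) ≤ (n : ℝ) ^ ε) →
      ∀ (Ω : Type u) [MeasurableSpace Ω] (μ : Measure Ω) [IsProbabilityMeasure μ] (E : ℕ → Set Ω),
      Model μ T E → ∀ᵐ ω ∂μ, {n | ω ∈ E n}.Infinite ∧ ∀ ε : ℝ, 0 < ε → ∀ᶠ X : ℕ in atTop,
        (1 - ε) * (Real.log X) ^ 2 ≤ G {n | ω ∈ E n} X) ∧
    (∀ θ : ℝ, 0 < θ → θ < 1 → ∃ C : ℝ, 0 < C ∧ ∀ T : ℕ → ℕ, Monotone T →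
      (∀ᶠ n : ℕ in atTop, (T n : ℝ) ≤ (Real.log n) ^ θ) →
      ∀ (Ω : Type u) [MeasurableSpace Ω] (μ : Measure Ω) [IsProbabilityMeasure μ] (E : ℕ → Set Ω),
      Model μ T E → ∀ᵐ ω ∂μ, ∀ ε : ℝ, 0 < ε → ∀ᶠ X : ℕ in atTop,
        (1 - ε) * (Real.log X) ^ 2 ≤ G {n | ω ∈ E n} X ∧
        (G {n | ω ∈ E n} X : ℝ) ≤ C * (Real.log X) ^ 2) := by
  refine ⟨?_, ?_⟩
  · intro T hT hTs Ω _ μ _ E hE
    filter_upwards [Pool.Agent.U839.Or.lower2 (toSieved hE) hT hTs,
      Pool.Agent.U839.Sv.inf (toSieved hE) hT hTs] with ω h1 h2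
    exact ⟨h2, h1⟩
  · intro θ hθ0 hθ
    obtain ⟨C, hC, H⟩ := Pool.Agent.U839.Or.upper2.{u} θ hθ0 hθ
    refine ⟨C, hC, fun T hT hTθ Ω _ μ _ E hE => ?_⟩
    filter_upwards [Pool.Agent.U839.Or.lower2 (toSieved hE) hT (Pool.Agent.U839.Sv.sub_pow T θ hTθ),
      H T hT hTθ Ω μ E (toSieved hE)] with ω h1 h2 ε hε
    filter_upwards [h1 ε hε, h2] with X g1 g2
    exact ⟨g1, g2⟩

end Pool.Agent.Results.MP_3bc45c_nt.OrderInSievedModels
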