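import Mathlib
import Pool.Agent.U52.PD.Cor
import Pool.Agent.U52.PD.Thr

set_option autoImplicit false

/-!
# Cramér's question when a small proportion of the primes is displaced at random

Replace every prime `p` by `p + ξ_p` with independent random integers `ξ_p ≥ 0`, let `Q` be the set of the
numbers `p + ξ_p`, and let `G(X)` be the largest gap between consecutive elements of `Q` up to `X`. Most of the
`ξ_p` may be zero: only a fixed proportion `δ > 0` of the primes has to be moved. We show, without any hypothesis: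

* (order) there is `θ < 1` such that `G(X)` has the order `(log X)²` almost surely, if every prime `p` stays
  with the probability `1 - δ` and is moved by a uniform amount up to `p ^ s` with the probability `δ`,
  for all `θ ≤ s < 1` and all `0 < δ ≤ 1`;
* (lower bound, arbitrary laws) if the point masses of the displacements are `o(1 / (log p)²)` and the
  displacements are `o(p)`, then `liminf G(X) / (log X)² ≥ 1 / (δ + log (1 / δ))`; if the point masses are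
  `O(1 / (log p)²)`, then the liminf is at least a positive constant;
* (upper bounds, arbitrary laws) `limsup G(X) / (log X)² ≤ 1 / δ` for displacements up to `p / (log p)^B`,
  and `G(X) = O((log X)² / δ)` for regular displacements of at least `p ^ θ`;
* (threshold) for displacements `o((log p)²)`, random or not, the lower half of Cramér's question for `Q` is
  equivalent to the lower half for the primes, and for displacements `O((log p)²)` the upper halves are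
  equivalent. So `(log p)²` is the exact size of displacements from which on the lower half can be proved.

Proof of the lower bound. For disjoint windows `I` of length `c (log X)²` in a dyadic block, the exponents `E_I`
with `P(I is empty) ≥ exp (-E_I)` are estimated on average over the windows: a prime `p` contributes to all
the windows together at most `d_p + log (1 / d_p) + o(1)`, `d_p` being the probability that it is moved. By
convexity and the prime number theorem at one scale the expected number of empty windows is a power of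
`X`. The events are negatively correlated, and the second moment method applies (library of helper839). The upper
bounds use the prime number theorem with error term and the theorem of Hoheisel (starting library).
-/

open MeasureTheory ProbabilityTheory Filter Topology

namespace Pool.Agent.Results.MP_3bc45c_nt.PartiallyDisplacedPrimes

/-- The set of the numbers `p + ξ_p`, `p` prime. -/
def Displaced {Ω : Type*} (ξ : ℕ → Ω → ℕ) (ω : Ω) : Set ℕ := {q | ∃ p : ℕ, p.Prime ∧ p + ξ p ω = q}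

/-- `G Q X` is the largest gap `q_(k+1) - q_k` between consecutive elements of `Q` with
`q_(k+1) ≤ X` (and `0` if there is none). -/
noncomputable def G (Q : Set ℕ) (X : ℕ) : ℕ :=
  sSup {g | ∃ k, Nat.nth (· ∈ Q) (k + 1) ≤ X ∧ g = Nat.nth (· ∈ Q) (k + 1) - Nat.nth (· ∈ Q) k}

/-- The displacements are random variables and independent. -/
structure Indep {Ω : Type*} [MeasurableSpace Ω] (μ : Measure Ω) (ξ : ℕ → Ω → ℕ) : Prop where
  meas : ∀ p, Measurable (ξ p)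
  indep : iIndepFun ξ μ

/-- Independent displacements; the prime `p` stays with the probability `1 - δ`, and each of the
displacements `1, …, D p` has the probability `δ / D p`. -/
structure Partly {Ω : Type*} [MeasurableSpace Ω] (μ : Measure Ω) (ξ : ℕ → Ω → ℕ) (δ : ℝ) (D : ℕ → ℕ) :
    Prop extends Indep μ ξ where
  law : ∀ p : ℕ, p.Prime → ∀ j : ℕ, μ.real (ξ p ⁻¹' {j}) =
    if j = 0 then 1 - δ else if j ≤ D p then δ / (D p : ℝ) else 0

/-- Independent displacements; every prime `p` is moved with a probability of at least `δ`, each value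
`j ≥ 1` of the displacement has a probability of at most `q p`, and the displacement is at most `m p`. -/
structure Spread {Ω : Type*} [MeasurableSpace Ω] (μ : Measure Ω) (ξ : ℕ → Ω → ℕ) (δ : ℝ) (q : ℕ → ℝ)
    (m : ℕ → ℕ) : Prop extends Indep μ ξ where
  moved : ∀ p : ℕ, p.Prime → δ ≤ μ.real {ω | ξ p ω ≠ 0}
  point : ∀ p : ℕ, p.Prime → ∀ j : ℕ, 1 ≤ j → μ.real (ξ p ⁻¹' {j}) ≤ q p
  range : ∀ p : ℕ, p.Prime → ∀ᵐ ω ∂μ, ξ p ω ≤ m p

/-- Independent displacements; each of the values `1, …, D p` has a probability of at least `δ / D p`. -/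
structure Dense {Ω : Type*} [MeasurableSpace Ω] (μ : Measure Ω) (ξ : ℕ → Ω → ℕ) (δ : ℝ) (D : ℕ → ℕ) :
    Prop extends Indep μ ξ where
  point : ∀ p : ℕ, p.Prime → ∀ j : ℕ, 1 ≤ j → j ≤ D p → δ / (D p : ℝ) ≤ μ.real (ξ p ⁻¹' {j})

theorem result.{u} :
    -- (1) the order of magnitude
    (∃ θ : ℝ, θ < 1 ∧ ∀ s : ℝ, θ ≤ s → s < 1 → ∀ δ : ℝ, 0 < δ → δ ≤ 1 → ∃ c C : ℝ, 0 < c ∧
      ∀ (Ω : Type u) [MeasurableSpace Ω] (μ : Measure Ω) [IsProbabilityMeasure μ] (ξ : ℕ → Ω → ℕ),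
      Partly μ ξ δ (fun p => ⌊(p : ℝ) ^ s⌋₊ + 1) → ∀ᵐ ω ∂μ, ∀ᶠ X : ℕ in atTop,
        c * (Real.log X) ^ 2 ≤ G (Displaced ξ ω) X ∧ G (Displaced ξ ω) X ≤ C * (Real.log X) ^ 2) ∧
    -- (2) the lower bound for arbitrary laws
    (∀ δ : ℝ, 0 < δ → δ ≤ 1 → ∀ (q : ℕ → ℝ) (m : ℕ → ℕ),
      Tendsto (fun n : ℕ => q n * (Real.log n) ^ 2) atTop (𝓝 0) →
      Tendsto (fun n : ℕ => (m n : ℝ) / n) atTop (𝓝 0) →
      ∀ (Ω : Type u) [MeasurableSpace Ω] (μ : Measure Ω) [IsProbabilityMeasure μ] (ξ : ℕ → Ω → ℕ),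
      Spread μ ξ δ q m → ∀ᵐ ω ∂μ, ∀ c : ℝ, c < 1 / (δ + Real.log (1 / δ)) → ∀ᶠ X : ℕ in atTop,
        c * (Real.log X) ^ 2 ≤ G (Displaced ξ ω) X) ∧
    -- (3) displacements of the order `(log p)²` suffice
    (∀ δ : ℝ, 0 < δ → δ ≤ 1 → ∀ K : ℝ, 0 < K → ∃ c : ℝ, 0 < c ∧ ∀ (q : ℕ → ℝ) (m : ℕ → ℕ),
      (∀ᶠ n : ℕ in atTop, q n * (Real.log n) ^ 2 ≤ K) →
      Tendsto (fun n : ℕ => (m n : ℝ) / n) atTop (𝓝 0) →
      ∀ (Ω : Type u) [MeasurableSpace Ω] (μ : Measure Ω) [IsProbabilityMeasure μ] (ξ : ℕ → Ω → ℕ),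
      Spread μ ξ δ q m → ∀ᵐ ω ∂μ, ∀ᶠ X : ℕ in atTop,
        c * (Real.log X) ^ 2 ≤ G (Displaced ξ ω) X) ∧
    -- (4) the upper bound with a constant
    (∀ δ : ℝ, 0 < δ → δ ≤ 1 → ∀ B : ℕ, 1 ≤ B →
      ∀ (Ω : Type u) [MeasurableSpace Ω] (μ : Measure Ω) [IsProbabilityMeasure μ] (ξ : ℕ → Ω → ℕ),
      Dense μ ξ δ (fun p => ⌊(p : ℝ) / (Real.log p) ^ B⌋₊ + 1) →
      ∀ᵐ ω ∂μ, ∀ c : ℝ, 1 / δ < c → ∀ᶠ X : ℕ in atTop,
        (G (Displaced ξ ω) X : ℝ) ≤ c * (Real.log X) ^ 2) ∧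
    -- (5) the order of the upper bound for power-saving displacements
    (∃ θ : ℝ, θ < 1 ∧ ∃ K : ℝ, 0 < K ∧ ∀ δ : ℝ, 0 < δ → δ ≤ 1 → ∀ A : ℝ, 1 ≤ A → ∀ D : ℕ → ℕ,
      Monotone D → (∀ n, 1 ≤ D n) → (∀ n, (D (2 * n) : ℝ) ≤ A * D n) →
      (∀ᶠ n : ℕ in atTop, (n : ℝ) ^ θ ≤ D n) → Tendsto (fun n : ℕ => (D n : ℝ) / n) atTop (𝓝 0) →
      ∀ (Ω : Type u) [MeasurableSpace Ω] (μ : Measure Ω) [IsProbabilityMeasure μ] (ξ : ℕ → Ω → ℕ),
      Dense μ ξ δ D → ∀ᵐ ω ∂μ, ∀ᶠ X : ℕ in atTop,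
        (G (Displaced ξ ω) X : ℝ) ≤ K * A / δ * (Real.log X) ^ 2) ∧
    -- (6) smaller displacements change nothing
    (∀ ξ : ℕ → ℕ, Tendsto (fun n : ℕ => (ξ n : ℝ) / (Real.log n) ^ 2) atTop (𝓝 0) →
      ((∃ c : ℝ, 0 < c ∧ ∀ᶠ X : ℕ in atTop, c * (Real.log X) ^ 2 ≤
          G {q | ∃ p : ℕ, p.Prime ∧ p + ξ p = q} X) ↔
        ∃ c : ℝ, 0 < c ∧ ∀ᶠ X : ℕ in atTop, c * (Real.log X) ^ 2 ≤ G {p | p.Prime} X)) ∧
    (∀ (ξ : ℕ → ℕ) (K : ℝ), 0 < K → (∀ᶠ n : ℕ in atTop, (ξ n : ℝ) ≤ K * (Real.log n) ^ 2) →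
      ((∃ C : ℝ, ∀ᶠ X : ℕ in atTop, (G {q | ∃ p : ℕ, p.Prime ∧ p + ξ p = q} X : ℝ) ≤
          C * (Real.log X) ^ 2) ↔
        ∃ C : ℝ, ∀ᶠ X : ℕ in atTop, (G {p | p.Prime} X : ℝ) ≤ C * (Real.log X) ^ 2)) := by
  refine ⟨?_, ?_, ?_, ?_, ?_, ?_, ?_⟩
  · obtain ⟨θ, h0, h1, h⟩ := Pool.Agent.U52.PD.order.{u}
    refine ⟨θ, h1, fun s hs hs1 δ hδ hδ1 => ?_⟩
    obtain ⟨c, C, hc, h2⟩ := h s hs hs1 δ hδ hδ1
    exact ⟨c, C, hc, fun Ω _ μ _ ξ hξ => h2 Ω μ ξ hξ.meas hξ.indep hξ.law⟩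
  · intro δ hδ hδ1 q m hq hm Ω _ μ _ ξ h
    exact Pool.Agent.U52.PD.part1 δ hδ hδ1 q m hq hm h.meas h.indep h.moved h.point h.range
  · intro δ hδ hδ1 K hK
    obtain ⟨c, hc, h⟩ := Pool.Agent.U52.PD.part2.{u} δ hδ hδ1 K hK
    exact ⟨c, hc, fun q m hq hm Ω _ μ _ ξ hξ =>
      h q m hq hm Ω μ ξ hξ.meas hξ.indep hξ.moved hξ.point hξ.range⟩
  · intro δ hδ hδ1 B hB Ω _ μ _ ξ h
    exact Pool.Agent.U52.PD.part3 δ hδ hδ1 B hB h.meas h.indep h.point
  · obtain ⟨θ, h0, h1, K, hK, h⟩ := Pool.Agent.U52.PD.part4.{u}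
    exact ⟨θ, h1, K, hK, fun δ hδ hδ1 A hA D hmono hD1 hdbl hlow hD0 Ω _ μ _ ξ hξ =>
      h δ hδ hδ1 A hA D hmono hD1 hdbl hlow hD0 Ω μ ξ hξ.meas hξ.indep hξ.point⟩
  · exact fun ξ h => Pool.Agent.U52.PD.lower_iff ξ h
  · exact fun ξ K hK h => Pool.Agent.U52.PD.upper_iff ξ K hK h

end Pool.Agent.Results.MP_3bc45c_nt.PartiallyDisplacedPrimes
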