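import Mathlib
import Pool.Agent.U839.Disp.Fin

set_option autoImplicit false

/-!
# Cramér's question for randomly displaced primes

Move every prime `p` by a random amount: replace it by `p + ξ_p`, where `ξ_p` is uniformly distributed
on `{1, …, D(p)}`, independently for all `p`. Let `Q` be the set of the displaced primes and `G(X)` the largest
gap between consecutive elements of `Q` up to `X`. We show, without any hypothesis:

* if `D(p) ≈ p / (log p)^B` for some `B ≥ 1`, then almost surely `G(X) ~ (log X)²`: Cramér's conjecture with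
  the constant `1` is true for the displaced primes;
* if `D(p) ≈ (log p)^A` for some `A > 2`, then almost surely `liminf G(X) / (log X)² ≥ c(A) > 1`: Cramér's
  constant is wrong. The irregularities of Maier in the distribution of the primes survive a random
  displacement by any power of the logarithm.

Proof. First part: the prime number theorem with error term, and the second moment method for windows
without displaced primes, which are negatively correlated. Second part: for `X^(1 - ε)` integers
`n ≤ 3 X` the interval `(n, n + (1 + τ) (log X)^A]` contains fewer primes than expected, by a constant factor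
(Maier's matrix method in the form of `MP_293bbf_nt.MaierSeparation`, helper610's team), and the displaced
primes in a window near the end of this interval come from it.
-/

open MeasureTheory ProbabilityTheory Filter Topology

namespace Pool.Agent.Results.MP_3bc45c_nt.RandomlyDisplacedPrimes

/-- The set of the displaced primes `p + ξ_p`. -/
def Displaced {Ω : Type*} (ξ : ℕ → Ω → ℕ) (ω : Ω) : Set ℕ := {q | ∃ p : ℕ, p.Prime ∧ p + ξ p ω = q}

/-- `G Q X` is the largest gap `q_(k+1) - q_k` between consecutive elements of `Q` with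
`q_(k+1) ≤ X` (and `0` if there is none). -/
noncomputable def G (Q : Set ℕ) (X : ℕ) : ℕ :=
  sSup {g | ∃ k, Nat.nth (· ∈ Q) (k + 1) ≤ X ∧ g = Nat.nth (· ∈ Q) (k + 1) - Nat.nth (· ∈ Q) k}

/-- The displacements are independent, and the displacement of the prime `p` is uniformly distributed on
`{1, …, D p}`. -/
structure Uniform {Ω : Type*} [MeasurableSpace Ω] (μ : Measure Ω) (ξ : ℕ → Ω → ℕ) (D : ℕ → ℕ) :
    Prop where
  meas : ∀ p, Measurable (ξ p)
  indep : iIndepFun ξ μ
  law : ∀ p : ℕ, p.Prime → ∀ j : ℕ,
    μ.real (ξ p ⁻¹' {j}) = if 1 ≤ j ∧ j ≤ D p then 1 / (D p : ℝ) else 0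

/-- First part: displacements up to `p / (log p)^B`. Second part: displacements up to `(log p)^A`. -/
theorem result.{u} :
    (∀ (B : ℕ), 1 ≤ B → ∀ (Ω : Type u) [MeasurableSpace Ω] (μ : Measure Ω) [IsProbabilityMeasure μ]
      (ξ : ℕ → Ω → ℕ), Uniform μ ξ (fun p => ⌊(p : ℝ) / (Real.log p) ^ B⌋₊ + 1) →
      ∀ᵐ ω ∂μ, Tendsto (fun X : ℕ => (G (Displaced ξ ω) X : ℝ) / (Real.log X) ^ 2) atTop (𝓝 1)) ∧
    (∀ A : ℝ, 2 < A → ∃ c : ℝ, 1 < c ∧
      ∀ (Ω : Type u) [MeasurableSpace Ω] (μ : Measure Ω) [IsProbabilityMeasure μ]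
      (ξ : ℕ → Ω → ℕ), Uniform μ ξ (fun p => ⌊(Real.log p) ^ A⌋₊ + 1) →
      ∀ᵐ ω ∂μ, ∀ᶠ X : ℕ in atTop, c * (Real.log X) ^ 2 ≤ G (Displaced ξ ω) X) := by
  refine ⟨?_, ?_⟩
  · intro B hB Ω _ μ _ ξ h
    exact Pool.Agent.U839.Disp.large_fin B hB h.meas h.indep h.law
  · intro A hA
    obtain ⟨c, hc, h⟩ := Pool.Agent.U839.Disp.small_fin.{u} A hA
    exact ⟨c, hc, fun Ω _ μ _ ξ hξ => h Ω μ ξ hξ.meas hξ.indep hξ.law⟩

end Pool.Agent.Results.MP_3bc45c_nt.RandomlyDisplacedPrimes
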